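import Mathlib

/-!
# Greedy independent subsequences
-/

namespace Pool.Agent.Y576.CC

open Module Submodule

variable {k V : Type*} [Field k] [AddCommGroup V] [Module k V]

/-- the indices whose vector is not in the span of the earlier ones -/
def greedy (k : Type*) {V : Type*} [Field k] [AddCommGroup V] [Module k V] (v : ℕ → V) : Set ℕ :=
  {n | v n ∉ span k (v '' Set.Iio n)}

theorem span_greedy (v : ℕ → V) (n : ℕ) :
    span k (v '' (greedy k v ∩ Set.Iio n)) = span k (v '' Set.Iio n) := by
  apply le_antisymm (span_mono (Set.image_mono Set.inter_subset_right))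
  rw [span_le]
  rintro _ ⟨m, hm, rfl⟩
  have hm' : m < n := hm
  induction m using Nat.strong_induction_on with
  | _ m ih =>
    by_cases hg : m ∈ greedy k v
    · exact subset_span ⟨m, ⟨hg, hm⟩, rfl⟩
    · have h1 : v m ∈ span k (v '' Set.Iio m) := by
        by_contra hcon
        exact hg hcon
      refine (span_le.2 ?_) h1
      rintro _ ⟨l, hl, rfl⟩
      exact ih l hl (hl.trans hm') (hl.trans hm')

theorem linearIndepOn_greedy_Iio (v : ℕ → V) (n : ℕ) :
    LinearIndepOn k v (greedy k v ∩ Set.Iio n) := by
  induction n with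
  | zero => simp
  | succ n ih =>
    by_cases hg : n ∈ greedy k v
    · have h1 : greedy k v ∩ Set.Iio (n + 1) = insert n (greedy k v ∩ Set.Iio n) := by
        ext m
        simp only [Set.mem_inter_iff, Set.mem_Iio, Set.mem_insert_iff, Nat.lt_succ_iff]
        constructor
        · rintro ⟨h1, h2⟩
          rcases h2.lt_or_eq with h | h
          · exact Or.inr ⟨h1, h⟩
          · exact Or.inl h
        · rintro (rfl | ⟨h1, h2⟩)
          · exact ⟨hg, le_rfl⟩
          · exact ⟨h1, h2.le⟩
      rw [h1]
      refine ih.insert ?_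
      rw [span_greedy]
      exact hg
    · have h1 : greedy k v ∩ Set.Iio (n + 1) = greedy k v ∩ Set.Iio n := by
        ext m
        simp only [Set.mem_inter_iff, Set.mem_Iio, Nat.lt_succ_iff]
        constructor
        · rintro ⟨h1, h2⟩
          rcases h2.lt_or_eq with h | h
          · exact ⟨h1, h⟩
          · exact absurd (h ▸ h1) hg
        · rintro ⟨h1, h2⟩
          exact ⟨h1, h2.le⟩
      rw [h1]
      exact ih

theorem linearIndepOn_greedy (v : ℕ → V) : LinearIndepOn k v (greedy k v) := by
  have h : greedy k v = ⋃ n : ℕ, (greedy k v ∩ Set.Iio n) := by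
    ext m
    simp only [Set.mem_iUnion, Set.mem_inter_iff, Set.mem_Iio]
    exact ⟨fun h => ⟨m + 1, h, Nat.lt_succ_self m⟩, fun ⟨_, h, _⟩ => h⟩
  rw [h]
  refine linearIndepOn_iUnion_of_directed ?_ (linearIndepOn_greedy_Iio v)
  intro a b
  refine ⟨max a b, ?_, ?_⟩
  · exact Set.inter_subset_inter_right _ (Set.Iio_subset_Iio (le_max_left a b))
  · exact Set.inter_subset_inter_right _ (Set.Iio_subset_Iio (le_max_right a b))

/-- in an interval on which the sequence is independent, few indices are omitted -/
theorem card_not_greedy (v : ℕ → V) {a b : ℕ} (h : LinearIndepOn k v (Set.Ico a b)) :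
    (Set.Ico a b \ greedy k v).ncard ≤ a := by
  by_cases hab : a ≤ b
  swap
  · rw [Set.Ico_eq_empty (fun hcon => hab hcon.le)]
    simp
  -- dimension of the span of the first `b` vectors
  have hfin : ∀ n, (greedy k v ∩ Set.Iio n).Finite := fun n =>
    (Set.finite_Iio n).subset Set.inter_subset_right
  have h1 : (Set.Ico a b).ncard ≤ (greedy k v ∩ Set.Iio b).ncard := by
    have hfd : FiniteDimensional k (span k (v '' Set.Iio b)) :=
      FiniteDimensional.span_of_finite k ((Set.finite_Iio b).image v)
    have e1 : (Set.Ico a b).ncard = finrank k (span k (v '' Set.Ico a b)) := by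
      have := Set.Finite.fintype (Set.finite_Ico a b)
      have h2 := finrank_span_eq_card (R := k) (b := fun x : Set.Ico a b => v x) h
      rw [show Set.range (fun x : Set.Ico a b => v x) = v '' Set.Ico a b from by
        ext y; simp] at h2
      rw [h2, Set.ncard_eq_toFinset_card', Set.toFinset_card]
    have e2 : (greedy k v ∩ Set.Iio b).ncard = finrank k (span k (v '' Set.Iio b)) := by
      have := Set.Finite.fintype (hfin b)
      have h2 := finrank_span_eq_card (R := k) (b := fun x : (greedy k v ∩ Set.Iio b : Set ℕ) => v x)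
        (linearIndepOn_greedy_Iio v b)
      rw [show Set.range (fun x : (greedy k v ∩ Set.Iio b : Set ℕ) => v x) =
        v '' (greedy k v ∩ Set.Iio b) from by
        ext y; simp, span_greedy] at h2
      rw [h2, Set.ncard_eq_toFinset_card', Set.toFinset_card]
    rw [e1, e2]
    apply Submodule.finrank_mono
    exact span_mono (Set.image_mono fun x hx => hx.2)
  have h2 : (greedy k v ∩ Set.Iio b).ncard ≤ a + (Set.Ico a b ∩ greedy k v).ncard := by
    calc (greedy k v ∩ Set.Iio b).ncard
        ≤ (Set.Iio a ∪ (Set.Ico a b ∩ greedy k v)).ncard := by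
          apply Set.ncard_le_ncard
          · rintro x ⟨hx1, hx2⟩
            by_cases hx : x < a
            · exact Or.inl hx
            · exact Or.inr ⟨⟨not_lt.1 hx, hx2⟩, hx1⟩
          · exact (Set.finite_Iio a).union ((Set.finite_Ico a b).subset Set.inter_subset_left)
      _ ≤ (Set.Iio a).ncard + (Set.Ico a b ∩ greedy k v).ncard := Set.ncard_union_le _ _
      _ = a + (Set.Ico a b ∩ greedy k v).ncard := by
          rw [Set.ncard_eq_toFinset_card', Set.toFinset_Iio, Nat.card_Iio]
  have h3 := Set.ncard_sdiff_add_ncard_of_subset (s := Set.Ico a b ∩ greedy k v)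
    (t := Set.Ico a b) Set.inter_subset_left (Set.finite_Ico a b)
  rw [Set.sdiff_self_inter] at h3
  omega

end Pool.Agent.Y576.CC
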