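import Mathlib
import Pool.Agent.Y576.CC.Greedy

/-!
# The family of ultrafilters

To every `x : ℕ → Bool` an ultrafilter `pt x` on `ℕ` is attached, in such a way that for every
countable set of sequences of independent vectors, attached to different points `x`, the members
with indices in suitable elements of the ultrafilters are jointly independent.
-/

namespace Pool.Agent.Y576.CC

open Module Submodule

/-! ### An almost disjoint family -/

/-- the code of the restriction of `x` to the first `n` arguments -/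
noncomputable def code (x : ℕ → Bool) (n : ℕ) : ℕ := Encodable.encode (List.ofFn fun i : Fin n => x i)

theorem code_inj {x y : ℕ → Bool} {m n : ℕ} (h : code x m = code y n) :
    m = n ∧ ∀ i < n, x i = y i := by
  have h1 := Encodable.encode_injective h
  have h2 : m = n := by
    have := congrArg List.length h1
    simpa using this
  subst h2
  refine ⟨rfl, fun i hi => ?_⟩
  have h3 := List.ofFn_injective h1
  exact congrFun h3 ⟨i, hi⟩

/-- the almost disjoint family -/
def Ad (x : ℕ → Bool) : Set ℕ := Set.range (code x)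

theorem Ad_infinite (x : ℕ → Bool) : (Ad x).Infinite :=
  Set.infinite_range_of_injective fun _ _ h => (code_inj h).1

theorem Ad_inter {x y : ℕ → Bool} (h : x ≠ y) : (Ad x ∩ Ad y).Finite := by
  obtain ⟨i, hi⟩ := Function.ne_iff.1 h
  refine ((Set.finite_Iic i).image (code x)).subset ?_
  rintro _ ⟨⟨n, rfl⟩, ⟨m, hm⟩⟩
  obtain ⟨h1, h2⟩ := code_inj hm
  refine ⟨n, ?_, rfl⟩
  by_contra hcon
  exact hi (h2 i (not_le.1 hcon)).symm

theorem exists_Ad {x : ℕ → Bool} (k : ℕ) : ∃ n ∈ Ad x, k < n := (Ad_infinite x).exists_gt k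

/-! ### The intervals -/

/-- the left end of the `n`-th interval -/
def a (n : ℕ) : ℕ := (n + 1).factorial

theorem a_pos (n : ℕ) : 0 < a n := Nat.factorial_pos _

theorem a_succ (n : ℕ) : a (n + 1) = (n + 2) * a n := by
  simp [a, Nat.factorial_succ]

theorem a_lt (n : ℕ) : a n < a (n + 1) := by
  rw [a_succ]
  have := a_pos n
  nlinarith

theorem a_strictMono : StrictMono a := strictMono_nat_of_lt_succ a_lt

/-- the intervals -/
def I (n : ℕ) : Set ℕ := Set.Ico (a n) (a (n + 1))

theorem I_finite (n : ℕ) : (I n).Finite := Set.finite_Ico _ _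

theorem I_card (n : ℕ) : (I n).ncard = (n + 1) * a n := by
  rw [I, Set.ncard_eq_toFinset_card', Set.toFinset_Ico, Nat.card_Ico, a_succ]
  have : (n + 2) * a n = (n + 1) * a n + a n := by ring
  omega

theorem I_disj {m n i : ℕ} (hm : i ∈ I m) (hn : i ∈ I n) : m = n := by
  rcases lt_trichotomy m n with h | h | h
  · have h1 : a (m + 1) ≤ a n := a_strictMono.monotone h
    exact absurd (hm.2.trans_le h1) (not_lt.2 hn.1)
  · exact h
  · have h1 : a (n + 1) ≤ a m := a_strictMono.monotone h
    exact absurd (hn.2.trans_le h1) (not_lt.2 hm.1)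

theorem le_of_mem_I {n i : ℕ} (h : i ∈ I n) : n ≤ i :=
  (a_strictMono.le_apply).trans h.1

/-! ### The filters -/

/-- the filter attached to `x` -/
def fil (x : ℕ → Bool) : Filter ℕ where
  sets := {U | ∃ k, ∀ n ∈ Ad x, k ≤ n → (I n \ U).ncard ≤ k * a n}
  univ_sets := ⟨0, fun n _ _ => by simp⟩
  sets_of_superset := by
    rintro U V ⟨k, hk⟩ hUV
    exact ⟨k, fun n hn hkn => (Set.ncard_le_ncard (Set.sdiff_subset_sdiff_right hUV)
      ((I_finite n).subset Set.sdiff_subset)).trans (hk n hn hkn)⟩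
  inter_sets := by
    rintro U V ⟨k, hk⟩ ⟨l, hl⟩
    refine ⟨k + l, fun n hn hkn => ?_⟩
    rw [Set.sdiff_inter, add_mul]
    exact (Set.ncard_union_le _ _).trans (add_le_add (hk n hn (by omega)) (hl n hn (by omega)))

theorem mem_fil {x : ℕ → Bool} {U : Set ℕ} :
    U ∈ fil x ↔ ∃ k, ∀ n ∈ Ad x, k ≤ n → (I n \ U).ncard ≤ k * a n := Iff.rfl

instance fil_neBot (x : ℕ → Bool) : (fil x).NeBot := by
  rw [Filter.neBot_iff]
  intro hbot
  have : (∅ : Set ℕ) ∈ fil x := by rw [hbot]; trivial
  obtain ⟨k, hk⟩ := mem_fil.1 this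
  obtain ⟨n, hn, hkn⟩ := exists_Ad (x := x) k
  have h1 := hk n hn hkn.le
  rw [Set.sdiff_empty, I_card] at h1
  have h2 := Nat.le_of_mul_le_mul_right h1 (a_pos n)
  omega

theorem Ioi_mem_fil (x : ℕ → Bool) (N : ℕ) : Set.Ioi N ∈ fil x := by
  refine mem_fil.2 ⟨N + 1, fun n _ hn => ?_⟩
  have : I n \ Set.Ioi N = ∅ := by
    ext i
    simp only [Set.mem_sdiff, Set.mem_Ioi, not_lt, Set.mem_empty_iff_false, iff_false, not_and,
      not_le]
    intro hi
    have := le_of_mem_I hi
    omega
  rw [this]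
  simp

/-- the ultrafilter attached to `x` -/
noncomputable def pt (x : ℕ → Bool) : Ultrafilter ℕ := Ultrafilter.of (fil x)

theorem mem_pt {x : ℕ → Bool} {U : Set ℕ} (h : U ∈ fil x) : U ∈ pt x := Ultrafilter.of_le (fil x) h

theorem pt_le_atTop (x : ℕ → Bool) : (pt x : Filter ℕ) ≤ Filter.atTop := by
  rw [Filter.atTop_basis_Ioi.ge_iff]
  intro N _
  exact mem_pt (Ioi_mem_fil x N)

/-! ### Joint independence -/

variable {k V : Type*} [Field k] [AddCommGroup V] [Module k V]

theorem exists_indep {D : Type*} [Countable D] {τ : D → ℕ → Bool} (hτ : Function.Injective τ)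
    {h : D → ℕ → V} (hh : ∀ d, LinearIndependent k (h d)) :
    ∃ U : D → Set ℕ, (∀ d, U d ∈ fil (τ d)) ∧
      LinearIndependent k (fun x : Σ d, U d => h x.1 x.2) := by
  classical
  obtain ⟨e, he⟩ := exists_injective_nat D
  -- thin out the almost disjoint family
  have hK : ∀ d : D, ∃ K, ∀ d' : D, e d' < e d → ∀ n ∈ Ad (τ d) ∩ Ad (τ d'), n < K := by
    intro d
    have hfin : (⋃ d' ∈ {d' : D | e d' < e d}, Ad (τ d) ∩ Ad (τ d')).Finite := by
      refine Set.Finite.biUnion ?_ ?_
      · exact Set.Finite.of_injOn (f := e) (t := Set.Iio (e d)) (fun x hx => hx)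
          he.injOn (Set.finite_Iio _)
      · intro d' hd'
        refine Ad_inter fun hcon => ?_
        have : d = d' := hτ hcon
        subst this
        exact lt_irrefl (e d) hd'
    obtain ⟨K, hK⟩ := hfin.bddAbove
    refine ⟨K + 1, fun d' hd' n hn => Nat.lt_succ_of_le (hK ?_)⟩
    exact Set.mem_biUnion (show d' ∈ {d' : D | e d' < e d} from hd') hn
  choose K hK using hK
  let A : D → Set ℕ := fun d => {n | n ∈ Ad (τ d) ∧ K d ≤ n}
  have hA : ∀ {d d' n}, n ∈ A d → n ∈ A d' → d = d' := by
    intro d d' n hn hn'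
    rcases lt_trichotomy (e d) (e d') with h1 | h1 | h1
    · exact absurd (hK d' d h1 n ⟨hn'.1, hn.1⟩) (not_lt.2 hn'.2)
    · exact he h1
    · exact absurd (hK d d' h1 n ⟨hn.1, hn'.1⟩) (not_lt.2 hn.2)
  -- the combined sequence
  let P : ℕ → D → Prop := fun m d => ∃ n ∈ A d, m ∈ I n
  have hP : ∀ {m d d'}, P m d → P m d' → d = d' := by
    rintro m d d' ⟨n, hn, hm⟩ ⟨n', hn', hm'⟩
    have := I_disj hm hm'
    subst this
    exact hA hn hn'
  let v : ℕ → V := fun m => if hm : ∃ d, P m d then h hm.choose m else 0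
  have hv : ∀ {m d}, P m d → v m = h d m := by
    intro m d hm
    have h1 : ∃ d, P m d := ⟨d, hm⟩
    have h2 : h1.choose = d := hP h1.choose_spec hm
    show (if hm : ∃ d, P m d then h hm.choose m else 0) = h d m
    rw [dif_pos h1, h2]
  let U : D → Set ℕ := fun d => {m | m ∈ greedy k v ∧ P m d}
  refine ⟨U, fun d => ?_, ?_⟩
  · refine mem_fil.2 ⟨K d + 1, fun n hn hkn => ?_⟩
    have hnA : n ∈ A d := ⟨hn, by omega⟩
    have h1 : I n \ U d ⊆ I n \ greedy k v := by
      rintro m ⟨hm1, hm2⟩
      refine ⟨hm1, fun hcon => hm2 ⟨hcon, n, hnA, hm1⟩⟩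
    have h2 : LinearIndepOn k v (I n) := by
      have h3 : LinearIndepOn k (h d) (I n) :=
        (hh d).linearIndepOn (I n)
      refine h3.congr ?_
      intro m hm
      exact (hv ⟨n, hnA, hm⟩).symm
    calc (I n \ U d).ncard ≤ (I n \ greedy k v).ncard :=
          Set.ncard_le_ncard h1 ((I_finite n).subset Set.sdiff_subset)
      _ ≤ a n := card_not_greedy v h2
      _ ≤ (K d + 1) * a n := Nat.le_mul_of_pos_left _ (by omega)
  · have h1 : LinearIndependent k (fun x : greedy k v => v x) := linearIndepOn_greedy v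
    let g : (Σ d, U d) → greedy k v := fun x => ⟨x.2, x.2.2.1⟩
    have hg : Function.Injective g := by
      rintro ⟨d, m, hm⟩ ⟨d', m', hm'⟩ heq
      have h2 : m = m' := congrArg (fun z : greedy k v => (z : ℕ)) heq
      subst h2
      have h3 : d = d' := hP hm.2 hm'.2
      subst h3
      rfl
    have h2 := h1.comp g hg
    have h3 : (fun x : Σ d, U d => h x.1 x.2) = (fun x : greedy k v => v x) ∘ g := by
      funext x
      exact (hv x.2.2.2).symm
    rw [h3]
    exact h2

/-- the members of a jointly independent family can be given arbitrary values -/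
theorem exists_functional {ι : Type*} {v : ι → V} (hv : LinearIndependent k v) (c : ι → k) :
    ∃ Ψ : V →ₗ[k] k, ∀ i, Ψ (v i) = c i := by
  obtain ⟨g, hg⟩ := LinearMap.exists_leftInverse_of_injective (Finsupp.linearCombination k v)
    (by rw [LinearMap.ker_eq_bot]; exact hv)
  refine ⟨(Finsupp.linearCombination k c).comp g, fun i => ?_⟩
  have h1 : g (v i) = Finsupp.single i 1 := by
    have := LinearMap.congr_fun hg (Finsupp.single i 1)
    simpa using this
  simp [h1]

end Pool.Agent.Y576.CC
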