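import Mathlib
import Pool.Agent.Y576.CC.Ultra

/-!
# The recursive construction
-/

namespace Pool.Agent.Y576.CC

open Module Submodule Cardinal

/-! ### Limits along ultrafilters -/

/-- the limit of a 0-1 sequence along an ultrafilter -/
noncomputable def plim (p : Ultrafilter ℕ) (u : ℕ → ZMod 2) : ZMod 2 :=
  open Classical in if {n | u n = 1} ∈ p then 1 else 0

theorem zmod2 (x : ZMod 2) : x = 0 ∨ x = 1 := by
  revert x; decide

theorem plim_spec (p : Ultrafilter ℕ) (u : ℕ → ZMod 2) : {n | u n = plim p u} ∈ p := by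
  unfold plim
  split_ifs with h
  · exact h
  · have h1 : {n | u n = 1}ᶜ ∈ p := Ultrafilter.compl_mem_iff_notMem.2 h
    refine Filter.mem_of_superset h1 fun n hn => ?_
    rcases zmod2 (u n) with h2 | h2
    · exact h2
    · exact absurd h2 hn

theorem plim_eq {p : Ultrafilter ℕ} {u : ℕ → ZMod 2} {c : ZMod 2} (h : {n | u n = c} ∈ p) :
    plim p u = c := by
  obtain ⟨n, h1, h2⟩ := (Filter.nonempty_of_mem (Filter.inter_mem (plim_spec p u) h))
  exact h1.symm.trans h2

theorem plim_congr {p : Ultrafilter ℕ} {u v : ℕ → ZMod 2} (h : {n | u n = v n} ∈ p) :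
    plim p u = plim p v := by
  apply plim_eq
  filter_upwards [h, plim_spec p v] with n h1 h2
  rw [h1]; exact h2

theorem plim_inj {p q : Ultrafilter ℕ} (h : ∀ u : ℕ → ZMod 2, plim p u = plim q u) : p = q := by
  classical
  apply Ultrafilter.coe_injective
  ext U
  let u : ℕ → ZMod 2 := fun n => if n ∈ U then 1 else 0
  have key : ∀ r : Ultrafilter ℕ, U ∈ r ↔ plim r u = 1 := by
    intro r
    constructor
    · intro hU
      apply plim_eq
      filter_upwards [hU] with n hn
      exact if_pos hn
    · intro hr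
      have := plim_spec r u
      rw [hr] at this
      refine Filter.mem_of_superset this fun n hn => ?_
      by_contra hcon
      have h1 : u n = 1 := hn
      have h2 : u n = 0 := if_neg hcon
      rw [h1] at h2
      exact one_ne_zero h2
  change U ∈ p ↔ U ∈ q
  rw [key p, key q, h u]

/-! ### The compact group -/

/-- the base generators -/
abbrev B : Type := Bool × ℕ

/-- the characters of the free Boolean group on the base generators -/
abbrev H : Type := B → ZMod 2

/-- the compact group -/
abbrev K : Type := H → ZMod 2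

/-- the elements which are limits of the base generators -/
noncomputable def E (q : Ultrafilter ℕ) (i : Bool) : K := fun φ => plim q fun n => φ (i, n)

/-- coordinatewise limit -/
noncomputable def plimK (p : Ultrafilter ℕ) (s : ℕ → K) : K := fun φ => plim p fun n => s n φ

/-- a test character -/
def test (i : Bool) (u : ℕ → ZMod 2) : H := fun b => if b.1 = i then u b.2 else 0

theorem E_test (q : Ultrafilter ℕ) (i : Bool) (u : ℕ → ZMod 2) : E q i (test i u) = plim q u := by
  simp [E, test]

theorem E_test' (q : Ultrafilter ℕ) (i : Bool) (u : ℕ → ZMod 2) : E q (!i) (test i u) = 0 := by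
  apply plim_eq
  have : {n : ℕ | test i u (!i, n) = 0} = Set.univ := by
    ext n
    simp [test]
  rw [this]
  exact Filter.univ_mem

theorem E_inj {q q' : Ultrafilter ℕ} {i : Bool} (h : E q i = E q' i) : q = q' :=
  plim_inj fun u => by rw [← E_test, ← E_test, h]

theorem E_inj' {q q' : Ultrafilter ℕ} (h : E q true + E q false = E q' true + E q' false) :
    q = q' := by
  refine plim_inj fun u => ?_
  have h1 := congrFun h (test true u)
  simp only [Pi.add_apply] at h1
  have h2 := E_test' q true u
  have h3 := E_test' q' true u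
  simp only [Bool.not_true] at h2 h3
  rw [h2, h3, E_test, E_test, add_zero, add_zero] at h1
  exact h1

theorem add_self (x : K) : x + x = 0 := by
  funext φ
  exact CharTwo.add_self_eq_zero _

theorem cancel {x y : K} (h : x + y = 0) : x = y := by
  have := congrArg (· + y) h
  simpa [add_assoc, add_self] using this

/-! ### The vector space of names -/

/-- the set of stages -/
abbrev Idx : Type := (𝔠 : Cardinal.{0}).ord.ToType

theorem mk_Idx : #Idx = 𝔠 := Cardinal.mk_ord_toType _

instance : Nonempty Idx := by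
  rw [← mk_ne_zero_iff, mk_Idx]
  exact continuum_ne_zero

theorem mk_Iio_Idx (α : Idx) : #(Set.Iio α) < 𝔠 := by
  simpa using Cardinal.mk_Iio_lt α

/-- the space of names -/
abbrev V : Type := (B ⊕ Idx) →₀ ZMod 2

/-- the evaluation of names -/
noncomputable def ev (z : Idx → K) : V →ₗ[ZMod 2] K :=
  Finsupp.linearCombination (ZMod 2) (Sum.elim (fun b φ => φ b) z)

theorem ev_inl (z : Idx → K) (b : B) : ev z (Finsupp.single (Sum.inl b) 1) = fun φ => φ b := by
  simp [ev]

theorem ev_inr (z : Idx → K) (α : Idx) : ev z (Finsupp.single (Sum.inr α) 1) = z α := by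
  simp [ev]

/-- the names which only use stages below `α` -/
def Low (α : Idx) (v : V) : Prop := ∀ β, α ≤ β → v (Sum.inr β) = 0

theorem ev_congr {z z' : Idx → K} {v : V} (h : ∀ β, v (Sum.inr β) ≠ 0 → z β = z' β) :
    ev z v = ev z' v := by
  rw [ev, ev, Finsupp.linearCombination_apply, Finsupp.linearCombination_apply]
  refine Finsupp.sum_congr fun x hx => ?_
  rcases x with b | β
  · rfl
  · simp only [Sum.elim_inr]
    rw [h β (Finsupp.mem_support_iff.1 hx)]

theorem ev_congr_low {z z' : Idx → K} {v : V} {α : Idx} (hv : Low α v)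
    (h : ∀ β < α, z β = z' β) : ev z v = ev z' v :=
  ev_congr fun β hβ => h β (by
    by_contra hcon
    exact hβ (hv β (not_lt.1 hcon)))

theorem mk_Low (α : Idx) : #{v : V // Low α v} < 𝔠 := by
  classical
  let s : Set (B ⊕ Idx) := {x | Sum.elim (fun _ => True) (fun β => β < α) x}
  have h1 : #s < 𝔠 := by
    have h2 : s = Set.range (Sum.inl : B → B ⊕ Idx) ∪ Sum.inr '' Set.Iio α := by
      ext x
      rcases x with b | β
      · simp [s]
      · simp [s]
    rw [h2]
    refine (mk_union_le _ _).trans_lt (add_lt_of_lt aleph0_le_continuum ?_ ?_)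
    · refine (mk_range_le).trans_lt ?_
      exact (mk_le_aleph0_iff.2 inferInstance).trans_lt aleph0_lt_continuum
    · exact mk_image_le.trans_lt (mk_Iio_Idx α)
  have hinf : Infinite s := by
    refine Infinite.of_injective (fun n : ℕ => (⟨Sum.inl (true, n), trivial⟩ : s)) ?_
    intro m n hmn
    have := congrArg Subtype.val hmn
    simpa using this
  have h3 : #(s →₀ ZMod 2) < 𝔠 := by
    rw [mk_finsupp_of_infinite]
    exact max_lt h1 ((lt_aleph0_of_finite _).trans aleph0_lt_continuum)
  refine lt_of_le_of_lt ?_ h3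
  refine mk_le_of_injective (f := fun v : {v : V // Low α v} =>
    (Finsupp.comapDomain (Subtype.val : s → B ⊕ Idx) v.1 Subtype.val_injective.injOn)) ?_
  intro v w hvw
  apply Subtype.ext
  ext x
  by_cases hx : x ∈ s
  · have := DFunLike.congr_fun hvw (⟨x, hx⟩ : s)
    simpa using this
  · rcases x with b | β
    · exact absurd trivial hx
    · have hβ : α ≤ β := not_lt.1 hx
      rw [v.2 β hβ, w.2 β hβ]

/-! ### The requirements -/

theorem mk_pairs : #(Idx × Idx) = #(ℕ → Bool) := by
  have h1 : #(Idx × Idx) = 𝔠 := by simp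
  have h2 : #(ℕ → Bool) = 𝔠 := by simp
  rw [h1, h2]

/-- distinct branches for distinct pairs -/
noncomputable def τ : Idx × Idx ≃ (ℕ → Bool) := (Cardinal.eq.1 mk_pairs).some

/-- the ultrafilters available at stage `α` -/
noncomputable def up (α ξ : Idx) : Ultrafilter ℕ := pt (τ (α, ξ))

/-- a system of sequences of names -/
structure Sys (f : Idx → ℕ → V) : Prop where
  ind : ∀ α, LinearIndependent (ZMod 2) (f α)
  low : ∀ α n, Low α (f α n)

/-- `w` is obtained at stage `α` with the `ξ`-th ultrafilter -/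
def Lim (f : Idx → ℕ → V) (α : Idx) (z : Idx → K) (w : K) (ξ : Idx) : Prop :=
  w = plimK (up α ξ) fun n => ev z (f α n)

/-- the forbidden points -/
def Forb (z : Idx → K) (w : K) (g h : V) (ε δ : ZMod 2) : Prop :=
  (ε, δ) ≠ (0, 0) ∧ ∃ q : Ultrafilter ℕ, ev z g + ε • w = E q true ∧ ev z h + δ • w = E q false

theorem forb_unique {z : Idx → K} {w w' : K} {g h : V} {ε δ : ZMod 2}
    (h1 : Forb z w g h ε δ) (h2 : Forb z w' g h ε δ) : w = w' := by
  obtain ⟨h0, q, h3, h4⟩ := h1
  obtain ⟨_, q', h5, h6⟩ := h2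
  have hq : q = q' := by
    rcases zmod2 ε with rfl | rfl
    · rw [zero_smul, add_zero] at h3 h5
      exact E_inj (h3.symm.trans h5)
    · rcases zmod2 δ with rfl | rfl
      · rw [zero_smul, add_zero] at h4 h6
        exact E_inj (h4.symm.trans h6)
      · rw [one_smul] at h3 h4 h5 h6
        apply E_inj'
        rw [← h3, ← h4, ← h5, ← h6]
        have e1 : ev z g + w + (ev z h + w) = ev z g + ev z h + (w + w) := by abel
        have e2 : ev z g + w' + (ev z h + w') = ev z g + ev z h + (w' + w') := by abel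
        rw [e1, e2, add_self, add_self]
  subst hq
  rcases zmod2 ε with rfl | rfl
  · rcases zmod2 δ with rfl | rfl
    · exact absurd rfl h0
    · rw [one_smul] at h4 h6
      exact add_left_cancel (h4.trans h6.symm)
  · rw [one_smul] at h3 h5
    exact add_left_cancel (h3.trans h5.symm)

/-- all stages reached from `α` -/
theorem exists_closed {f : Idx → ℕ → V} (hf : Sys f) (α : Idx) :
    ∃ D : Set Idx, D.Countable ∧ (∀ β ∈ D, β < α) ∧ (∀ n β, f α n (Sum.inr β) ≠ 0 → β ∈ D) ∧
      ∀ β ∈ D, ∀ n γ, f β n (Sum.inr γ) ≠ 0 → γ ∈ D := by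
  induction α using WellFoundedLT.induction with
  | _ α ih =>
    have hlow : ∀ n β, f α n (Sum.inr β) ≠ 0 → β < α := by
      intro n β h
      by_contra hcon
      exact h (hf.low α n β (not_lt.1 hcon))
    choose! D h1 h2 h3 h4 using ih
    refine ⟨⋃ n : ℕ, ⋃ β ∈ {β | f α n (Sum.inr β) ≠ 0}, insert β (D β), ?_, ?_, ?_, ?_⟩
    · refine Set.countable_iUnion fun n => Set.Countable.biUnion ?_ fun β hβ => ?_
      · have : {β | f α n (Sum.inr β) ≠ 0} = Sum.inr ⁻¹' ((f α n).support : Set (B ⊕ Idx)) := by
          ext β; simp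
        rw [this]
        exact ((f α n).support.finite_toSet.preimage Sum.inr_injective.injOn).countable
      · exact (h1 β (hlow n β hβ)).insert β
    · intro γ hγ
      simp only [Set.mem_iUnion] at hγ
      obtain ⟨n, β, hβ, hγ⟩ := hγ
      have hβ' := hlow n β hβ
      rcases hγ with rfl | hγ
      · exact hβ'
      · exact (h2 β hβ' γ hγ).trans hβ'
    · intro n β hβ
      simp only [Set.mem_iUnion]
      exact ⟨n, β, hβ, Set.mem_insert _ _⟩
    · intro β hβ n γ hγ
      simp only [Set.mem_iUnion] at hβ ⊢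
      obtain ⟨m, β', hβ', hβ⟩ := hβ
      have hlt := hlow m β' hβ'
      refine ⟨m, β', hβ', Set.mem_insert_of_mem _ ?_⟩
      rcases hβ with rfl | hβ
      · exact h3 β hlt n γ hγ
      · exact h4 β' hlt β hβ n γ hγ

/-- adding the new generator keeps a sequence independent -/
theorem ind_add {f : Idx → ℕ → V} (hf : Sys f) (β : Idx) :
    LinearIndependent (ZMod 2) fun n => f β n + Finsupp.single (Sum.inr β) 1 := by
  classical
  let π : V →ₗ[ZMod 2] V := LinearMap.id - (Finsupp.lsingle (Sum.inr β)).comp (Finsupp.lapply (Sum.inr β))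
  apply LinearIndependent.of_comp π
  have : (π ∘ fun n => f β n + Finsupp.single (Sum.inr β) 1) = f β := by
    funext n
    have h := hf.low β n β le_rfl
    simp [π, h]
  rw [this]
  exact hf.ind β

theorem separate {f : Idx → ℕ → V} (hf : Sys f) {α : Idx} {z : Idx → K}
    (hz : ∀ β < α, ∃ ξ, Lim f β z (z β) ξ) {w : K} {ξ ξ' : Idx} (h : Lim f α z w ξ)
    (h' : Lim f α z w ξ') : ξ = ξ' := by
  classical
  by_contra hne
  obtain ⟨D, hD1, hD2, hD3, hD4⟩ := exists_closed hf α
  choose! x hx using hz
  have := hD1.to_subtype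
  let t : D ⊕ Bool → Idx × Idx := Sum.elim (fun β => (β, x β)) fun b => (α, if b then ξ else ξ')
  have ht : Function.Injective t := by
    rintro (β | b) (β' | b') heq
    · have : (β : Idx) = β' := congrArg Prod.fst heq
      rw [Subtype.ext this]
    · have : (β : Idx) = α := congrArg Prod.fst heq
      exact absurd this (hD2 β β.2).ne
    · have : α = (β' : Idx) := congrArg Prod.fst heq
      exact absurd this (hD2 β' β'.2).ne'
    · have : (if b then ξ else ξ') = if b' then ξ else ξ' := congrArg Prod.snd heq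
      rcases b with _ | _ <;> rcases b' with _ | _
      · rfl
      · exact absurd (by simpa using this.symm) hne
      · exact absurd (by simpa using this) hne
      · rfl
  let hh : D ⊕ Bool → ℕ → V :=
    Sum.elim (fun β n => f β n + Finsupp.single (Sum.inr (β : Idx)) 1) fun _ => f α
  have hhi : ∀ d, LinearIndependent (ZMod 2) (hh d) := by
    rintro (β | b)
    · exact ind_add hf β
    · exact hf.ind α
  obtain ⟨U, hU, hind⟩ := exists_indep (τ.injective.comp ht) hhi
  obtain ⟨Ψ, hΨ⟩ := exists_functional hind (fun y => Sum.elim (fun _ => 0)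
    (fun b : Bool => if b then (1 : ZMod 2) else 0) y.1)
  let φ : H := fun b => Ψ (Finsupp.single (Sum.inl b) 1)
  -- the extension of `φ` agrees with `Ψ`
  have key1 : ∀ v : V, (∀ β, v (Sum.inr β) ≠ 0 → z β φ = Ψ (Finsupp.single (Sum.inr β) 1)) →
      ev z v φ = Ψ v := by
    intro v hv
    conv_rhs => rw [← Finsupp.sum_single v]
    rw [ev, Finsupp.linearCombination_apply, Finsupp.sum, Finsupp.sum, map_sum, Finset.sum_apply]
    refine Finset.sum_congr rfl fun y hy => ?_
    have hy' := Finsupp.mem_support_iff.1 hy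
    have e1 : (Finsupp.single y (v y) : V) = v y • Finsupp.single y 1 := by
      rw [Finsupp.smul_single, smul_eq_mul, mul_one]
    rw [e1, map_smul, Pi.smul_apply]
    rcases y with b | β
    · rfl
    · simp only [Sum.elim_inr]
      rw [hv β hy']
  have key2 : ∀ β ∈ D, z β φ = Ψ (Finsupp.single (Sum.inr β) 1) := by
    intro β
    induction β using WellFoundedLT.induction with
    | _ β ih =>
      intro hβ
      have h1 : z β φ = plim (up β (x β)) fun n => ev z (f β n) φ := by
        conv_lhs => rw [hx β (hD2 β hβ)]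
        rfl
      rw [h1]
      apply plim_eq
      have h2 : U (Sum.inl ⟨β, hβ⟩) ∈ up β (x β) := mem_pt (hU (Sum.inl ⟨β, hβ⟩))
      filter_upwards [h2] with n hn
      have h3 := hΨ ⟨Sum.inl ⟨β, hβ⟩, n, hn⟩
      simp only [hh, Sum.elim_inl, map_add] at h3
      have h4 : ev z (f β n) φ = Ψ (f β n) := by
        refine key1 _ fun γ hγ => ih γ ?_ (hD4 β hβ n γ hγ)
        by_contra hcon
        exact hγ (hf.low β n γ (not_lt.1 hcon))
      show ev z (f β n) φ = Ψ (Finsupp.single (Sum.inr β) 1)
      rw [h4]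
      exact CharTwo.add_eq_zero.1 h3
  have key3 : ∀ b : Bool, (plimK (up α (if b then ξ else ξ')) fun n => ev z (f α n)) φ =
      if b then (1 : ZMod 2) else 0 := by
    intro b
    apply plim_eq
    have h2 : U (Sum.inr b) ∈ up α (if b then ξ else ξ') := mem_pt (hU (Sum.inr b))
    filter_upwards [h2] with n hn
    have h3 := hΨ ⟨Sum.inr b, n, hn⟩
    simp only [hh, Sum.elim_inr] at h3
    have h4 : ev z (f α n) φ = Ψ (f α n) := key1 _ fun γ hγ => key2 γ (hD3 n γ hγ)
    show ev z (f α n) φ = _
    rw [h4]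
    exact h3
  have k1 := key3 true
  have k2 := key3 false
  simp only [if_true, Bool.false_eq_true, if_false] at k1 k2
  have h1 : w = plimK (up α ξ) fun n => ev z (f α n) := h
  have h2 : w = plimK (up α ξ') fun n => ev z (f α n) := h'
  rw [← h1] at k1
  rw [← h2, k1] at k2
  exact one_ne_zero k2

/-- the requirement at stage `α` -/
def Req (f : Idx → ℕ → V) (α : Idx) (z : Idx → K) (w : K) : Prop :=
  (∃ ξ, Lim f α z w ξ) ∧ ∀ g h : V, Low α g → Low α h → ∀ ε δ : ZMod 2, ¬ Forb z w g h ε δ

theorem exists_req {f : Idx → ℕ → V} (hf : Sys f) {α : Idx} {z : Idx → K}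
    (hz : ∀ β < α, ∃ ξ, Lim f β z (z β) ξ) : ∃ w, Req f α z w := by
  classical
  by_contra hcon
  have h1 : ∀ ξ : Idx, ∃ x : {v : V // Low α v} × {v : V // Low α v} × ZMod 2 × ZMod 2,
      Forb z (plimK (up α ξ) fun n => ev z (f α n)) x.1 x.2.1 x.2.2.1 x.2.2.2 := by
    intro ξ
    by_contra hc
    refine hcon ⟨_, ⟨ξ, rfl⟩, fun g h hg hh ε δ hF => hc ⟨(⟨g, hg⟩, ⟨h, hh⟩, ε, δ), hF⟩⟩
  choose F hF using h1
  have hinj : Function.Injective F := by
    intro ξ ξ' h2
    have h3 := hF ξ'
    rw [← h2] at h3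
    have h4 := forb_unique (hF ξ) h3
    exact separate hf hz (w := plimK (up α ξ) fun n => ev z (f α n)) rfl h4
  have h5 := mk_le_of_injective hinj
  rw [mk_Idx] at h5
  have h6 : #({v : V // Low α v} × {v : V // Low α v} × ZMod 2 × ZMod 2) < 𝔠 := by
    simp only [mk_prod, lift_id]
    have hz2 : #(ZMod 2) < 𝔠 := (lt_aleph0_of_finite _).trans aleph0_lt_continuum
    exact mul_lt_of_lt aleph0_le_continuum (mk_Low α) (mul_lt_of_lt aleph0_le_continuum (mk_Low α)
      (mul_lt_of_lt aleph0_le_continuum hz2 hz2))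
  exact absurd h5 (not_le.2 h6)

theorem lim_congr {f : Idx → ℕ → V} (hf : Sys f) {α : Idx} {z z' : Idx → K}
    (h : ∀ β < α, z β = z' β) (w : K) (ξ : Idx) : Lim f α z w ξ ↔ Lim f α z' w ξ := by
  unfold Lim
  have : (fun n => ev z (f α n)) = fun n => ev z' (f α n) := by
    funext n
    exact ev_congr_low (hf.low α n) h
  rw [this]

theorem req_congr {f : Idx → ℕ → V} (hf : Sys f) {α : Idx} {z z' : Idx → K}
    (h : ∀ β < α, z β = z' β) {w : K} (hr : Req f α z w) : Req f α z' w := by
  obtain ⟨⟨ξ, h1⟩, h2⟩ := hr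
  refine ⟨⟨ξ, (lim_congr hf h w ξ).1 h1⟩, fun g h' hg hh ε δ hF => h2 g h' hg hh ε δ ?_⟩
  obtain ⟨h3, q, h4, h5⟩ := hF
  refine ⟨h3, q, ?_, ?_⟩
  · rw [ev_congr_low hg h]; exact h4
  · rw [ev_congr_low hh h]; exact h5

theorem exists_construction {f : Idx → ℕ → V} (hf : Sys f) : ∃ z : Idx → K, ∀ α, Req f α z (z α) := by
  classical
  let ext : (α : Idx) → ((β : Idx) → β < α → K) → Idx → K :=
    fun α g β => if h : β < α then g β h else 0
  let step : (α : Idx) → ((β : Idx) → β < α → K) → K := fun α g =>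
    if h : ∃ w, Req f α (ext α g) w then h.choose else 0
  let z : Idx → K := (wellFounded_lt (α := Idx)).fix step
  have hz : ∀ α, z α = step α fun β _ => z β := fun α => WellFounded.fix_eq _ _ _
  have hext : ∀ α β, β < α → ext α (fun β _ => z β) β = z β := fun α β h => dif_pos h
  refine ⟨z, fun α => ?_⟩
  induction α using WellFoundedLT.induction with
  | _ α ih =>
    have h1 : ∃ w, Req f α (ext α fun β _ => z β) w := by
      refine exists_req hf fun β hβ => ?_
      obtain ⟨ξ, hξ⟩ := (ih β hβ).1
      refine ⟨ξ, ?_⟩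
      rw [hext α β hβ]
      exact (lim_congr hf (fun γ hγ => (hext α γ (hγ.trans hβ)).symm) _ ξ).1 hξ
    have h2 : z α = h1.choose := by
      rw [hz α]
      exact dif_pos h1
    rw [h2]
    exact req_congr hf (fun β hβ => hext α β hβ) h1.choose_spec

end Pool.Agent.Y576.CC
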