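import Mathlib
import Pool.Agent.Y576.CC.Build

/-!
# The group
-/

namespace Pool.Agent.Y576.CC

open Module Submodule Cardinal Filter Topology

/-! ### Bookkeeping -/

theorem countable_bounded {S : Set Idx} (hS : S.Countable) : ∃ γ, ∀ β ∈ S, β < γ := by
  by_contra hcon
  push Not at hcon
  have h1 : IsCofinal S := fun x => by
    obtain ⟨β, hβ, hx⟩ := hcon x
    exact ⟨β, hβ, hx⟩
  have h2 : Order.cof Idx ≤ ℵ₀ := (Order.cof_le h1).trans (le_aleph0_iff_set_countable.2 hS)
  have h3 : ℵ₀ < Order.cof Idx := by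
    rw [Ordinal.cof_toType, ← two_power_aleph0]
    exact lt_cof_ord_power le_rfl one_lt_two
  exact absurd h2 (not_le.2 h3)

/-- the set of independent sequences -/
abbrev Sq : Type := {v : ℕ → V // LinearIndependent (ZMod 2) v}

theorem mk_V : #V = 𝔠 := by
  have : #(B ⊕ Idx) = 𝔠 := by
    have h1 : #B ≤ 𝔠 := mk_le_aleph0.trans aleph0_le_continuum
    rw [mk_sum, lift_id, lift_id, mk_Idx, add_eq_right aleph0_le_continuum h1]
  rw [mk_finsupp_of_infinite, this]
  exact max_eq_left ((lt_aleph0_of_finite _).le.trans aleph0_le_continuum)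

theorem mk_Sq : #Sq ≤ 𝔠 := by
  refine (mk_subtype_le _).trans ?_
  rw [← power_def, mk_V]
  simp

/-- the default sequence -/
noncomputable def dflt : ℕ → V := fun n => Finsupp.single (Sum.inl (true, n)) 1

theorem dflt_ind : LinearIndependent (ZMod 2) dflt := by
  have h := Finsupp.linearIndependent_single_one (ZMod 2) (B ⊕ Idx)
  exact h.comp (fun n : ℕ => Sum.inl (true, n)) (fun m n hmn => by simpa using hmn)

theorem dflt_low (α : Idx) (n : ℕ) : Low α (dflt n) := by
  intro β _
  simp [dflt]

theorem exists_sys : ∃ f : Idx → ℕ → V, Sys f ∧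
    ∀ v : ℕ → V, LinearIndependent (ZMod 2) v → ∃ α, f α = v := by
  classical
  have hne : Nonempty Sq := ⟨⟨dflt, dflt_ind⟩⟩
  have h1 : #(Idx × Sq) = #Idx := by
    rw [mk_prod, lift_id, lift_id, mk_Idx]
    exact mul_eq_left aleph0_le_continuum mk_Sq (mk_ne_zero _)
  obtain ⟨g⟩ := Cardinal.eq.1 h1.symm
  let f : Idx → ℕ → V := fun α => if ∀ n, Low α ((g α).2.1 n) then (g α).2.1 else dflt
  refine ⟨f, ⟨fun α => ?_, fun α n => ?_⟩, fun v hv => ?_⟩
  · by_cases h : ∀ n, Low α ((g α).2.1 n)
    · have : f α = (g α).2.1 := if_pos h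
      rw [this]; exact (g α).2.2
    · have : f α = dflt := if_neg h
      rw [this]; exact dflt_ind
  · by_cases h : ∀ n, Low α ((g α).2.1 n)
    · have : f α = (g α).2.1 := if_pos h
      rw [this]; exact h n
    · have : f α = dflt := if_neg h
      rw [this]; exact dflt_low α n
  · -- the supports are bounded
    have hS : (⋃ n : ℕ, {β | v n (Sum.inr β) ≠ 0}).Countable := by
      refine Set.countable_iUnion fun n => ?_
      have : {β | v n (Sum.inr β) ≠ 0} = Sum.inr ⁻¹' ((v n).support : Set (B ⊕ Idx)) := by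
        ext β; simp
      rw [this]
      exact ((v n).support.finite_toSet.preimage Sum.inr_injective.injOn).countable
    obtain ⟨γ, hγ⟩ := countable_bounded hS
    -- there is a late stage at which `v` is handled
    have h2 : ∃ ξ, γ ≤ g.symm (ξ, ⟨v, hv⟩) := by
      by_contra hcon
      push Not at hcon
      have h3 : Function.Injective fun ξ : Idx => (⟨g.symm (ξ, ⟨v, hv⟩), hcon ξ⟩ : Set.Iio γ) := by
        intro ξ ξ' h
        have h4 := g.symm.injective (congrArg Subtype.val h)
        exact congrArg Prod.fst h4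
      have h5 := mk_le_of_injective h3
      rw [mk_Idx] at h5
      exact absurd h5 (not_le.2 (mk_Iio_Idx γ))
    obtain ⟨ξ, hξ⟩ := h2
    refine ⟨g.symm (ξ, ⟨v, hv⟩), ?_⟩
    have h3 : g (g.symm (ξ, ⟨v, hv⟩)) = (ξ, ⟨v, hv⟩) := g.apply_symm_apply _
    have h4 : ∀ n, Low (g.symm (ξ, ⟨v, hv⟩)) ((g (g.symm (ξ, ⟨v, hv⟩))).2.1 n) := by
      intro n β hβ
      rw [h3]
      by_contra hne
      have h5 := hγ β (Set.mem_iUnion.2 ⟨n, hne⟩)
      exact absurd (hξ.trans hβ) (not_le.2 h5)
    show (if ∀ n, Low _ ((g _).2.1 n) then (g _).2.1 else dflt) = v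
    rw [if_pos h4, h3]

/-! ### No common limits -/

theorem no_common {f : Idx → ℕ → V} {z : Idx → K} (hz : ∀ α, Req f α z (z α)) (g h : V)
    (q : Ultrafilter ℕ) (hq : (q : Filter ℕ) ≤ cofinite) :
    ¬ (ev z g = E q true ∧ ev z h = E q false) := by
  classical
  rintro ⟨h1, h2⟩
  -- the stages used by `g` and `h`
  let S : Finset Idx := (g.support ∪ h.support).preimage Sum.inr Sum.inr_injective.injOn
  by_cases hS : S.Nonempty
  · let α := S.max' hS
    have hα : α ∈ S := S.max'_mem hS
    have hmax : ∀ β, α < β → g (Sum.inr β) = 0 ∧ h (Sum.inr β) = 0 := by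
      intro β hβ
      have hβS : β ∉ S := fun hc => absurd (S.le_max' β hc) (not_le.2 hβ)
      simpa [S, not_or] using hβS
    let g' : V := g + Finsupp.single (Sum.inr α) (g (Sum.inr α))
    let h' : V := h + Finsupp.single (Sum.inr α) (h (Sum.inr α))
    have hlow : ∀ v : V, (∀ β, α < β → v (Sum.inr β) = 0) →
        Low α (v + Finsupp.single (Sum.inr α) (v (Sum.inr α))) := by
      intro v hv β hβ
      rcases hβ.lt_or_eq with hlt | rfl
      · have : (Sum.inr α : B ⊕ Idx) ≠ Sum.inr β := fun hc => hlt.ne (Sum.inr_injective hc)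
        rw [Finsupp.add_apply, Finsupp.single_eq_of_ne' this, add_zero]
        exact hv β hlt
      · rw [Finsupp.add_apply, Finsupp.single_eq_same]
        exact CharTwo.add_self_eq_zero _
    have hev : ∀ v : V, ev z (v + Finsupp.single (Sum.inr α) (v (Sum.inr α))) +
        v (Sum.inr α) • z α = ev z v := by
      intro v
      have e1 : (Finsupp.single (Sum.inr α) (v (Sum.inr α)) : V) =
          v (Sum.inr α) • Finsupp.single (Sum.inr α) 1 := by
        rw [Finsupp.smul_single, smul_eq_mul, mul_one]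
      rw [map_add, e1, map_smul, ev_inr, add_assoc, add_self, add_zero]
    refine (hz α).2 g' h' (hlow g fun β hβ => (hmax β hβ).1) (hlow h fun β hβ => (hmax β hβ).2)
      (g (Sum.inr α)) (h (Sum.inr α)) ⟨?_, q, ?_, ?_⟩
    · intro hc
      have hc1 : g (Sum.inr α) = 0 := congrArg Prod.fst hc
      have hc2 : h (Sum.inr α) = 0 := congrArg Prod.snd hc
      have : α ∉ S := by simp [S, hc1, hc2]
      exact this hα
    · rw [hev g]; exact h1
    · rw [hev h]; exact h2
  · -- only base generators are used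
    have hg : ∀ β, g (Sum.inr β) = 0 := by
      intro β
      by_contra hc
      exact hS ⟨β, by simp [S, hc]⟩
    -- a character vanishing on `g` with limit `1`
    let T : Set ℕ := {n | g (Sum.inl (true, n)) ≠ 0}
    have hT : T.Finite := by
      have : T = (fun n : ℕ => (Sum.inl (true, n) : B ⊕ Idx)) ⁻¹' (g.support : Set (B ⊕ Idx)) := by
        ext n; simp [T]
      rw [this]
      refine g.support.finite_toSet.preimage (Function.Injective.injOn ?_)
      intro m n hmn
      simpa using hmn
    let u : ℕ → ZMod 2 := fun n => if n ∈ T then 0 else 1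
    have e1 : E q true (test true u) = 1 := by
      rw [E_test]
      apply plim_eq
      have : Tᶜ ∈ (q : Filter ℕ) := hq hT.compl_mem_cofinite
      filter_upwards [this] with n hn
      exact if_neg hn
    have e2 : ev z g (test true u) = 0 := by
      rw [ev, Finsupp.linearCombination_apply, Finsupp.sum, Finset.sum_apply]
      refine Finset.sum_eq_zero fun x hx => ?_
      have hx' := Finsupp.mem_support_iff.1 hx
      rcases x with ⟨i, n⟩ | β
      · rcases i with _ | _
        · simp [test]
        · have : n ∈ T := hx'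
          simp [test, u, this]
      · exact absurd (hg β) hx'
    rw [h1, e1] at e2
    exact one_ne_zero e2

/-! ### Independent subsequences -/

theorem exists_subseq {v : ℕ → V} (hv : Function.Injective v) :
    ∃ σ : ℕ → ℕ, StrictMono σ ∧ LinearIndependent (ZMod 2) (v ∘ σ) := by
  classical
  have hinf : (greedy (ZMod 2) v).Infinite := by
    intro hfin
    obtain ⟨N, hN⟩ := hfin.bddAbove
    have h1 : ∀ m, v m ∈ span (ZMod 2) (v '' Set.Iio (N + 1)) := by
      intro m
      have h2 : v m ∈ span (ZMod 2) (v '' Set.Iio (m + 1)) :=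
        subset_span ⟨m, Nat.lt_succ_self m, rfl⟩
      rw [← span_greedy] at h2
      refine span_mono ?_ h2
      rintro _ ⟨l, hl, rfl⟩
      exact ⟨l, Nat.lt_succ_of_le (hN hl.1), rfl⟩
    have hfd : Module.Finite (ZMod 2) (span (ZMod 2) (v '' Set.Iio (N + 1))) :=
      FiniteDimensional.span_of_finite _ ((Set.finite_Iio _).image v)
    have : Finite (span (ZMod 2) (v '' Set.Iio (N + 1))) := Module.finite_of_finite (ZMod 2)
    have h3 : Function.Injective fun m : ℕ => (⟨v m, h1 m⟩ : span (ZMod 2) (v '' Set.Iio (N + 1))) :=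
      fun m n hmn => hv (congrArg Subtype.val hmn)
    have := Finite.of_injective _ h3
    exact not_finite ℕ
  have := hinf.to_subtype
  let σ := Nat.orderEmbeddingOfSet (greedy (ZMod 2) v)
  refine ⟨σ, σ.strictMono, ?_⟩
  have h1 : LinearIndependent (ZMod 2) fun x : greedy (ZMod 2) v => v x := linearIndepOn_greedy v
  have h2 : ∀ n, σ n ∈ greedy (ZMod 2) v := fun n => by
    rw [← Nat.orderEmbeddingOfSet_range (greedy (ZMod 2) v)]
    exact ⟨n, rfl⟩
  exact h1.comp (fun n => ⟨σ n, h2 n⟩)
    (fun m n hmn => σ.injective (congrArg Subtype.val hmn))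

/-! ### The topology -/

theorem tendsto_K {p : Ultrafilter ℕ} {s : ℕ → K} {x : K} (h : Tendsto s p (𝓝 x)) :
    plimK p s = x := by
  funext φ
  apply plim_eq
  have h1 := (continuous_apply φ).continuousAt.tendsto.comp h
  exact h1 (show {x φ} ∈ 𝓝 (x φ) from mem_nhds_discrete.2 rfl)

theorem tendsto_plimK (p : Ultrafilter ℕ) (s : ℕ → K) : Tendsto s p (𝓝 (plimK p s)) := by
  rw [tendsto_pi_nhds]
  intro φ
  rw [nhds_discrete, tendsto_pure]
  exact plim_spec p fun n => s n φ

theorem main : ∃ G : AddSubgroup K, CountablyCompactSpace G ∧ ¬ CountablyCompactSpace (G × G) := by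
  classical
  obtain ⟨f, hf, hf'⟩ := exists_sys
  obtain ⟨z, hz⟩ := exists_construction hf
  let G : AddSubgroup K := (ev z).toAddMonoidHom.range
  have hG : ∀ v, ev z v ∈ G := fun v => ⟨v, rfl⟩
  refine ⟨G, ⟨?_⟩, fun hcc => ?_⟩
  · rw [isCountablyCompact_iff_infinite_subset_has_accPt]
    intro S _ hS
    let s : ℕ → G := fun n => (Set.Infinite.natEmbedding S hS n : G)
    have hs : Function.Injective s := Subtype.val_injective.comp (Set.Infinite.natEmbedding S hS).injective
    have hsS : ∀ n, s n ∈ S := fun n => (Set.Infinite.natEmbedding S hS n).2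
    choose v hv using fun n => (s n).2
    have hv' : ∀ n, ev z (v n) = s n := hv
    have hvi : Function.Injective v := by
      intro m n hmn
      apply hs
      apply Subtype.ext
      rw [← hv' m, ← hv' n, hmn]
    obtain ⟨σ, hσ, hind⟩ := exists_subseq hvi
    obtain ⟨α, hα⟩ := hf' _ hind
    obtain ⟨ξ, hξ⟩ := (hz α).1
    have hξ' : z α = plimK (up α ξ) fun n => (s (σ n) : K) := by
      rw [hξ, hα]
      congr 1
      funext n
      exact hv' (σ n)
    let g : G := ⟨z α, by rw [← ev_inr z α]; exact hG _⟩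
    refine ⟨g, trivial, ?_⟩
    have ht : Tendsto (fun n => s (σ n)) (up α ξ) (𝓝 g) := by
      rw [tendsto_subtype_rng]
      show Tendsto (fun n => (s (σ n) : K)) (up α ξ) (𝓝 (z α))
      rw [hξ']
      exact tendsto_plimK _ _
    rw [accPt_iff_nhds]
    intro W hW
    have h1 : {n | s (σ n) ∈ W} ∈ up α ξ := ht hW
    have h2 : {n | s (σ n) = g}ᶜ ∈ up α ξ := by
      have h3 : {n | s (σ n) = g}.Subsingleton := by
        intro m hm n hn
        exact hσ.injective (hs (hm.trans hn.symm))
      have h4 : ({n | s (σ n) = g}ᶜ : Set ℕ) ∈ (atTop : Filter ℕ) := by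
        rw [← Nat.cofinite_eq_atTop]
        exact h3.finite.compl_mem_cofinite
      exact pt_le_atTop _ h4
    obtain ⟨n, hn1, hn2⟩ := Filter.nonempty_of_mem (Filter.inter_mem h1 h2)
    exact ⟨s (σ n), ⟨hn1, hsS _⟩, hn2⟩
  · let x : Bool → ℕ → G := fun i n => ⟨ev z (Finsupp.single (Sum.inl (i, n)) 1), hG _⟩
    have h1 := isCountablyCompact_iff_seq_clusterPt.1 hcc.isCountablyCompact_univ
      (fun n => (x true n, x false n)) (Eventually.of_forall fun _ => trivial)
    obtain ⟨⟨g, h⟩, _, hgh⟩ := h1
    obtain ⟨q, hq1, hq2⟩ := mapClusterPt_iff_ultrafilter.1 hgh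
    have key : ∀ i : Bool, ∀ y : G, Tendsto (x i) q (𝓝 y) → (y : K) = E q i := by
      intro i y hy
      have h2 : Tendsto (fun n => (x i n : K)) q (𝓝 (y : K)) := by
        have := (continuous_subtype_val (p := (· ∈ G))).continuousAt.tendsto.comp hy
        exact this
      rw [← tendsto_K h2]
      funext φ
      show plim q (fun n => ev z (Finsupp.single (Sum.inl (i, n)) 1) φ) = plim q fun n => φ (i, n)
      simp only [ev_inl]
    have hg := key true g ((continuous_fst.continuousAt.tendsto.comp hq2))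
    have hh := key false h ((continuous_snd.continuousAt.tendsto.comp hq2))
    obtain ⟨v, hv⟩ := g.2
    obtain ⟨w, hw⟩ := h.2
    refine no_common hz v w q ?_ ⟨hv.trans hg, hw.trans hh⟩
    rw [Nat.cofinite_eq_atTop]
    exact hq1

end Pool.Agent.Y576.CC
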